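import Pool.Agent.helper88.WB.MDefs

/-! Part M of MP_7b8095_gt, module MK: the projective action on the closed ball. -/

set_option autoImplicit false
open Matrix MeasureTheory Filter Topology

namespace Pool.Agent.helper88.WB
open Pool.Agent.helper21.WB

theorem mk_abs_inner_le {u v : Fin 4 → ℝ} (hu : u ∈ Bal) (hv : v ∈ Bal) :
    |∑ i, u i * v i| ≤ 1 := by
  have h := cs_spatial u v
  have hu' : ∑ i, u i ^ 2 ≤ 1 := hu
  have hv' : ∑ i, v i ^ 2 ≤ 1 := hv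
  have hv0 : 0 ≤ ∑ i, v i ^ 2 := Finset.sum_nonneg (fun i _ => sq_nonneg _)
  have h1 : (∑ i, u i * v i) ^ 2 ≤ 1 ^ 2 := by
    calc (∑ i, u i * v i) ^ 2 ≤ (∑ i, u i ^ 2) * (∑ i, v i ^ 2) := h
      _ ≤ 1 * 1 := by gcongr
      _ = 1 ^ 2 := by norm_num
  exact abs_le_of_sq_le_sq h1 (by norm_num)

theorem bb_nonneg {u v : Fin 4 → ℝ} (hu : u ∈ Bal) (hv : v ∈ Bal) : 0 ≤ bb u v := by
  have := (abs_le.1 (mk_abs_inner_le hu hv)).2
  unfold bb; linarith

theorem bb_le_two {u v : Fin 4 → ℝ} (hu : u ∈ Bal) (hv : v ∈ Bal) : bb u v ≤ 2 := by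
  have := (abs_le.1 (mk_abs_inner_le hu hv)).1
  unfold bb; linarith

theorem bb_comm (u v : Fin 4 → ℝ) : bb u v = bb v u := by
  unfold bb
  congr 1
  exact Finset.sum_congr rfl (fun i _ => mul_comm _ _)

theorem mk_sum_sub_sq (u v : Fin 4 → ℝ) :
    ∑ i, (u i - v i) ^ 2 = ∑ i, u i ^ 2 + ∑ i, v i ^ 2 - 2 * ∑ i, u i * v i := by
  rw [Finset.mul_sum, ← Finset.sum_add_distrib, ← Finset.sum_sub_distrib]
  exact Finset.sum_congr rfl (fun i _ => by ring)

theorem bb_eq_zero {u v : Fin 4 → ℝ} (hu : u ∈ Sph) (hv : v ∈ Sph) : bb u v = 0 ↔ u = v := by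
  have hu' : ∑ i, u i ^ 2 = 1 := hu
  have hv' : ∑ i, v i ^ 2 = 1 := hv
  have h := mk_sum_sub_sq u v
  constructor
  · intro h0
    unfold bb at h0
    have h1 : ∑ i, (u i - v i) ^ 2 = 0 := by rw [h, hu', hv']; linarith
    rw [Finset.sum_eq_zero_iff_of_nonneg (fun i _ => sq_nonneg _)] at h1
    ext i
    have := h1 i (Finset.mem_univ i)
    have := pow_eq_zero_iff (two_ne_zero) |>.1 this
    linarith
  · rintro rfl
    unfold bb
    have : ∑ i, u i * u i = ∑ i, u i ^ 2 := Finset.sum_congr rfl (fun i _ => by ring)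
    rw [this, hu']; norm_num

theorem continuous_bb : Continuous (fun p : (Fin 4 → ℝ) × (Fin 4 → ℝ) => bb p.1 p.2) := by
  unfold bb
  fun_prop

theorem isCompact_Sph : IsCompact Sph := by
  refine IsCompact.of_isClosed_subset (isCompact_Icc (a := (fun _ => -1 : Fin 4 → ℝ))
    (b := (fun _ => 1 : Fin 4 → ℝ))) ?_ ?_
  · exact isClosed_eq (by fun_prop) continuous_const
  · intro u hu
    have hu' : ∑ i, u i ^ 2 = 1 := hu
    have h : ∀ i, |u i| ≤ 1 := by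
      intro i
      have h1 : u i ^ 2 ≤ ∑ i, u i ^ 2 :=
        Finset.single_le_sum (f := fun i => u i ^ 2) (fun i _ => sq_nonneg _) (Finset.mem_univ i)
      rw [hu'] at h1
      exact abs_le_of_sq_le_sq (by linarith) (by norm_num)
    exact ⟨fun i => (abs_le.1 (h i)).1, fun i => (abs_le.1 (h i)).2⟩

theorem Sph_subset_Bal : Sph ⊆ Bal := fun _ hu => le_of_eq hu

theorem kl_smul {c : ℝ} (hc : c ≠ 0) (v : I → ℝ) : kl (c • v) = kl v := by
  ext i
  simp only [kl, Pi.smul_apply, smul_eq_mul]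
  exact mul_div_mul_left _ _ hc

theorem nl_kl {v : I → ℝ} (hv : v o ≠ 0) : nl (kl v) = (v o)⁻¹ • v := by
  ext i
  rcases i with i | i
  · simp only [nl, kl, Sum.elim_inl, Pi.smul_apply, smul_eq_mul]
    rw [div_eq_inv_mul]
  · simp only [nl, Sum.elim_inr, Pi.smul_apply, smul_eq_mul]
    exact (inv_mul_cancel₀ hv).symm

theorem mk_kl_nl (u : Fin 4 → ℝ) : kl (nl u) = u := by
  ext i
  simp [nl, kl]

theorem bl_nl (u v : Fin 4 → ℝ) : bl (nl u) (nl v) = - bb u v := by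
  rw [bl_apply]
  simp only [nl, Sum.elim_inl, Sum.elim_inr, bb]
  ring

theorem mk_bb_self (u : Fin 4 → ℝ) : bb u u = 1 - ∑ i, u i ^ 2 := by
  unfold bb
  congr 1
  exact Finset.sum_congr rfl (fun i _ => by ring)

theorem mk_mem_Bal_iff {u : Fin 4 → ℝ} : u ∈ Bal ↔ 0 ≤ bb u u := by
  rw [mk_bb_self]
  constructor
  · intro h
    have h' : ∑ i, u i ^ 2 ≤ 1 := h
    linarith
  · intro h
    show ∑ i, u i ^ 2 ≤ 1
    linarith

theorem mk_mem_Sph_iff {u : Fin 4 → ℝ} : u ∈ Sph ↔ bb u u = 0 := by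
  rw [mk_bb_self]
  constructor
  · intro h
    have h' : ∑ i, u i ^ 2 = 1 := h
    linarith
  · intro h
    show ∑ i, u i ^ 2 = 1
    linarith

theorem kp_mem_Bal (y : X) : kp y ∈ Bal := by
  have h0 := lift_o_pos y
  have h1 : lift y o ≠ 0 := by linarith
  rw [mk_mem_Bal_iff, ← neg_nonpos, ← bl_nl, kp, nl_kl h1, bl_smul_left, bl_smul_right, bl_lift]
  have : 0 < (lift y o)⁻¹ := by positivity
  nlinarith

theorem mulVec_nl_pos {g : GLI} (hg : InG g) {u : Fin 4 → ℝ} (hu : u ∈ Bal) :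
    0 < (g.val *ᵥ nl u) o := by
  have hv := bl_row hg.1
  have hn := bl_neg (v := fun j => (if j = o then (1:ℝ) else -1) * g.val o j)
    (w := nl u) (by rw [hv]; norm_num) (by simpa using hg.2)
    (by rw [bl_nl]; linarith [mk_mem_Bal_iff.1 hu]) (by simp [nl])
  have : (g.val *ᵥ nl u) o
      = - bl (fun j => (if j = o then (1:ℝ) else -1) * g.val o j) (nl u) := by
    rw [bl_apply, Matrix.mulVec, dotProduct, Fintype.sum_sum_type]
    simp [add_comm]
  rw [this]; linarith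

theorem mulVec_nl {g : GLI} (hg : InG g) {u : Fin 4 → ℝ} (hu : u ∈ Bal) :
    g.val *ᵥ nl u = ((g.val *ᵥ nl u) o) • nl (kact g u) := by
  have h := (mulVec_nl_pos hg hu).ne'
  rw [kact, nl_kl h, smul_smul, mul_inv_cancel₀ h, one_smul]

theorem bb_kact {g : GLI} (hg : InG g) {u v : Fin 4 → ℝ} (hu : u ∈ Bal) (hv : v ∈ Bal) :
    bb (kact g u) (kact g v) = bb u v / (((g.val *ᵥ nl u) o) * ((g.val *ᵥ nl v) o)) := by
  have hu0 := mulVec_nl_pos hg hu
  have hv0 := mulVec_nl_pos hg hv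
  have h := bl_mulVec hg.1 (nl u) (nl v)
  rw [mulVec_nl hg hu, mulVec_nl hg hv, bl_smul_left, bl_smul_right, bl_nl, bl_nl] at h
  rw [eq_div_iff (by positivity)]
  linarith

theorem kact_mem_Sph {g : GLI} (hg : InG g) {u : Fin 4 → ℝ} (hu : u ∈ Sph) : kact g u ∈ Sph := by
  rw [mk_mem_Sph_iff, bb_kact hg (Sph_subset_Bal hu) (Sph_subset_Bal hu), mk_mem_Sph_iff.1 hu, zero_div]

theorem kact_mem_Bal {g : GLI} (hg : InG g) {u : Fin 4 → ℝ} (hu : u ∈ Bal) : kact g u ∈ Bal := by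
  rw [mk_mem_Bal_iff, bb_kact hg hu hu]
  have := mulVec_nl_pos hg hu
  have := mk_mem_Bal_iff.1 hu
  positivity

theorem kact_mul {g h : GLI} (hg : InG g) (hh : InG h) {u : Fin 4 → ℝ} (hu : u ∈ Bal) :
    kact (g * h) u = kact g (kact h u) := by
  have e : ((g * h : GLI).val) = g.val * h.val := rfl
  have h1 : kact (g * h) u = kl (g.val *ᵥ (h.val *ᵥ nl u)) := by
    rw [kact, e, Matrix.mulVec_mulVec]
  rw [h1, mulVec_nl hh hu, Matrix.mulVec_smul, kl_smul (mulVec_nl_pos hh hu).ne']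
  rfl

theorem kact_one (u : Fin 4 → ℝ) : kact 1 u = u := by
  have e : ((1 : GLI).val) = 1 := rfl
  rw [kact, e, Matrix.one_mulVec, mk_kl_nl]

theorem kp_act {g : GLI} (hg : InG g) (y : X) : kp (act g y) = kact g (kp y) := by
  have h0 := lift_o_pos y
  have h1 : lift y o ≠ 0 := by linarith
  rw [kp, lift_act hg, kact, kp, nl_kl h1, Matrix.mulVec_smul, kl_smul (inv_ne_zero h1)]

theorem mk_continuous_nl : Continuous nl := by
  refine continuous_pi (fun i => ?_)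
  rcases i with i | i
  · simp only [nl, Sum.elim_inl]
    exact continuous_apply i
  · simp only [nl, Sum.elim_inr]
    exact continuous_const

theorem mk_tendsto_kl {α : Type} {l : Filter α} {v : α → I → ℝ} {v₀ : I → ℝ} (h0 : v₀ o ≠ 0)
    (h : Tendsto v l (𝓝 v₀)) : Tendsto (fun a => kl (v a)) l (𝓝 (kl v₀)) := by
  rw [tendsto_pi_nhds] at h ⊢
  intro i
  exact (h (Sum.inl i)).div (h o) h0

theorem tendsto_kact {g : ℕ → GLI} {k : GLI} (hg : ∀ n, InG (g n)) (hk : InG k)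
    (h : Tendsto (fun n => (g n).val) atTop (𝓝 k.val)) {u : ℕ → Fin 4 → ℝ} {u₀ : Fin 4 → ℝ}
    (hu : ∀ n, u n ∈ Bal) (hu₀ : u₀ ∈ Bal) (h2 : Tendsto u atTop (𝓝 u₀)) :
    Tendsto (fun n => kact (g n) (u n)) atTop (𝓝 (kact k u₀)) := by
  have hc : Continuous (fun p : Mat × (I → ℝ) => p.1 *ᵥ p.2) :=
    Continuous.matrix_mulVec continuous_fst continuous_snd
  have h3 : Tendsto (fun n => nl (u n)) atTop (𝓝 (nl u₀)) := (mk_continuous_nl.tendsto u₀).comp h2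
  have h4 : Tendsto (fun n => (g n).val *ᵥ nl (u n)) atTop (𝓝 (k.val *ᵥ nl u₀)) :=
    (hc.tendsto (k.val, nl u₀)).comp (h.prodMk_nhds h3)
  exact mk_tendsto_kl (mulVec_nl_pos hk hu₀).ne' h4

theorem continuousOn_kact {g : GLI} (hg : InG g) : ContinuousOn (kact g) Bal := by
  intro u hu
  have hc : Continuous (fun v : Fin 4 → ℝ => g.val *ᵥ nl v) :=
    Continuous.matrix_mulVec continuous_const mk_continuous_nl
  exact mk_tendsto_kl (mulVec_nl_pos hg hu).ne' (hc.tendsto u |>.mono_left nhdsWithin_le_nhds)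

theorem mk_mulVec_nl_apply (A : Mat) (u : Fin 4 → ℝ) (j : I) :
    (A *ᵥ nl u) j = ∑ i, A j (Sum.inl i) * u i + A j o := by
  rw [Matrix.mulVec, dotProduct, Fintype.sum_sum_type]
  simp [nl]

theorem mk_single_mem_Sph (i : Fin 4) : (Pi.single i 1 : Fin 4 → ℝ) ∈ Sph := by
  show ∑ j, (Pi.single i 1 : Fin 4 → ℝ) j ^ 2 = 1
  rw [Finset.sum_eq_single i]
  · simp
  · intro j _ hj
    rw [Pi.single_eq_of_ne hj]; norm_num
  · intro h; exact absurd (Finset.mem_univ i) h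

theorem mk_neg_mem_Sph {u : Fin 4 → ℝ} (hu : u ∈ Sph) : -u ∈ Sph := by
  have hu' : ∑ i, u i ^ 2 = 1 := hu
  show ∑ j, (-u) j ^ 2 = 1
  simpa using hu'

theorem eq_of_kact {g h : GLI} (hg : InG g) (hh : InG h) (he : ∀ u ∈ Sph, kact g u = kact h u) :
    g = h := by
  have hpg : ∀ u ∈ Sph, 0 < (g.val *ᵥ nl u) o := fun u hu => mulVec_nl_pos hg (Sph_subset_Bal hu)
  have hph : ∀ u ∈ Sph, 0 < (h.val *ᵥ nl u) o := fun u hu => mulVec_nl_pos hh (Sph_subset_Bal hu)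
  -- products of the factors agree
  have hprod : ∀ u ∈ Sph, ∀ v ∈ Sph, u ≠ v →
      (g.val *ᵥ nl u) o * (g.val *ᵥ nl v) o = (h.val *ᵥ nl u) o * (h.val *ᵥ nl v) o := by
    intro u hu v hv huv
    have hb : bb u v ≠ 0 := fun h0 => huv ((bb_eq_zero hu hv).1 h0)
    have h1 := bb_kact hg (Sph_subset_Bal hu) (Sph_subset_Bal hv)
    have h2 := bb_kact hh (Sph_subset_Bal hu) (Sph_subset_Bal hv)
    rw [he u hu, he v hv, h2] at h1
    have p1 := mul_pos (hpg u hu) (hpg v hv)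
    have p2 := mul_pos (hph u hu) (hph v hv)
    rw [div_eq_div_iff p2.ne' p1.ne'] at h1
    exact mul_left_cancel₀ hb h1
  -- three distinct points
  set e0 : Fin 4 → ℝ := Pi.single 0 1 with he0
  set e1 : Fin 4 → ℝ := Pi.single 1 1 with he1
  have m0 : e0 ∈ Sph := mk_single_mem_Sph 0
  have m1 : e1 ∈ Sph := mk_single_mem_Sph 1
  have m2 : -e0 ∈ Sph := mk_neg_mem_Sph m0
  have n01 : e0 ≠ e1 := by
    intro h0
    have := congrFun h0 0
    simp [he0, he1] at this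
  have n02 : e0 ≠ -e0 := by
    intro h0
    have := congrFun h0 0
    simp [he0] at this
    norm_num at this
  have n12 : e1 ≠ -e0 := by
    intro h0
    have := congrFun h0 1
    simp [he0, he1] at this
  have three : ∀ {a b c a' b' c' : ℝ}, 0 < a → 0 < b → 0 < c → 0 < a' → 0 < b' → 0 < c' →
      a * b = a' * b' → a * c = a' * c' → b * c = b' * c' → a = a' := by
    intro a b c a' b' c' ha hb hc ha' hb' hc' h1 h2 h3
    have h4 : a ^ 2 * (b * c) = a' ^ 2 * (b * c) := by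
      calc a ^ 2 * (b * c) = (a * b) * (a * c) := by ring
        _ = (a' * b') * (a' * c') := by rw [h1, h2]
        _ = a' ^ 2 * (b' * c') := by ring
        _ = a' ^ 2 * (b * c) := by rw [h3]
    have h5 : a ^ 2 = a' ^ 2 := mul_right_cancel₀ (mul_pos hb hc).ne' h4
    exact (sq_eq_sq₀ ha.le ha'.le).1 h5
  have q0 : (g.val *ᵥ nl e0) o = (h.val *ᵥ nl e0) o :=
    three (hpg _ m0) (hpg _ m1) (hpg _ m2) (hph _ m0) (hph _ m1) (hph _ m2)
      (hprod _ m0 _ m1 n01) (hprod _ m0 _ m2 n02) (hprod _ m1 _ m2 n12)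
  have q2 : (g.val *ᵥ nl (-e0)) o = (h.val *ᵥ nl (-e0)) o :=
    three (hpg _ m2) (hpg _ m0) (hpg _ m1) (hph _ m2) (hph _ m0) (hph _ m1)
      (hprod _ m2 _ m0 n02.symm) (hprod _ m2 _ m1 n12.symm) (hprod _ m0 _ m1 n01)
  have q : ∀ u ∈ Sph, (g.val *ᵥ nl u) o = (h.val *ᵥ nl u) o := by
    intro u hu
    by_cases hu0 : u = e0
    · rw [hu0, q0]
    · have h1 := hprod u hu e0 m0 hu0
      rw [q0] at h1
      exact mul_right_cancel₀ (hph _ m0).ne' h1
  have hvec : ∀ u ∈ Sph, g.val *ᵥ nl u = h.val *ᵥ nl u := by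
    intro u hu
    rw [mulVec_nl hg (Sph_subset_Bal hu), mulVec_nl hh (Sph_subset_Bal hu), he u hu, q u hu]
  have hval : g.val = h.val := by
    have hcol : ∀ (j : I) (i : Fin 4),
        g.val j (Sum.inl i) + g.val j o = h.val j (Sum.inl i) + h.val j o ∧
        - g.val j (Sum.inl i) + g.val j o = - h.val j (Sum.inl i) + h.val j o := by
      intro j i
      have a1 := congrFun (hvec _ (mk_single_mem_Sph i)) j
      have a2 := congrFun (hvec _ (mk_neg_mem_Sph (mk_single_mem_Sph i))) j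
      rw [mk_mulVec_nl_apply, mk_mulVec_nl_apply] at a1 a2
      simp [Pi.single_apply] at a1 a2
      exact ⟨a1, a2⟩
    ext j k
    rcases k with k | k
    · have := hcol j k
      linarith [this.1, this.2]
    · have := hcol j 0
      have e : (Sum.inr k : I) = o := rfl
      rw [e]
      linarith [this.1, this.2]
  exact Units.ext hval

theorem QM.comp {H : ℝ} {θ : (Fin 4 → ℝ) → (Fin 4 → ℝ)} (hθ : Set.MapsTo θ Sph Sph) (hQ : QM H θ)
    {m : GLI} (hm : InG m) : QM H (fun u => kact m (θ u)) := by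
  intro u₁ h₁ u₂ h₂ u₃ h₃ u₄ h₄ hle
  have b₁ := Sph_subset_Bal (hθ h₁)
  have b₂ := Sph_subset_Bal (hθ h₂)
  have b₃ := Sph_subset_Bal (hθ h₃)
  have b₄ := Sph_subset_Bal (hθ h₄)
  have key := hQ u₁ h₁ u₂ h₂ u₃ h₃ u₄ h₄ hle
  have p₁ := mulVec_nl_pos hm b₁
  have p₂ := mulVec_nl_pos hm b₂
  have p₃ := mulVec_nl_pos hm b₃
  have p₄ := mulVec_nl_pos hm b₄
  simp only
  rw [bb_kact hm b₁ b₂, bb_kact hm b₃ b₄, bb_kact hm b₁ b₃, bb_kact hm b₂ b₄]
  set a₁ := (m.val *ᵥ nl (θ u₁)) o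
  set a₂ := (m.val *ᵥ nl (θ u₂)) o
  set a₃ := (m.val *ᵥ nl (θ u₃)) o
  set a₄ := (m.val *ᵥ nl (θ u₄)) o
  have e1 : bb (θ u₁) (θ u₂) / (a₁ * a₂) * (bb (θ u₃) (θ u₄) / (a₃ * a₄))
      = (bb (θ u₁) (θ u₂) * bb (θ u₃) (θ u₄)) / (a₁ * a₂ * a₃ * a₄) := by
    field_simp
  have e2 : H * (bb (θ u₁) (θ u₃) / (a₁ * a₃) * (bb (θ u₂) (θ u₄) / (a₂ * a₄)))
      = (H * (bb (θ u₁) (θ u₃) * bb (θ u₂) (θ u₄))) / (a₁ * a₂ * a₃ * a₄) := by
    field_simp
  rw [e1, e2]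
  gcongr

end Pool.Agent.helper88.WB
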